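import Mathlib
import Pool.Agent.Helper97.Pendant.Defs
import Pool.Agent.Helper97.Pendant.Main

set_option autoImplicit false

namespace Pool.Agent.Results.MP_420e77_co.PendantFails

open Pool.Agent.Helper97.Pendant

/-- There is a planar graph `H`, the disjoint union of `k` triangles and `m` isolated vertices,
such that attaching a pendant vertex at any vertex `v` of any of the triangles does not change
`f`: both values are finite and `f(H') = f(H)`, so that `f(H') ≠ f(H) + 1`. -/
theorem result : ∃ k m : ℕ, 0 < k ∧
    HasPlaneDrawing (trianglesAndPoints k m) ∧
    (forcingWidths (trianglesAndPoints k m)).Nonempty ∧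
    ∀ v : Fin k × Fin 3,
      (forcingWidths (attachPendant (trianglesAndPoints k m) (Sum.inl v))).Nonempty ∧
      minorForcingWidth (attachPendant (trianglesAndPoints k m) (Sum.inl v)) =
        minorForcingWidth (trianglesAndPoints k m) ∧
      minorForcingWidth (attachPendant (trianglesAndPoints k m) (Sum.inl v)) ≠
        minorForcingWidth (trianglesAndPoints k m) + 1 := by
  obtain ⟨k, m, hk, h⟩ := main
  refine ⟨k, m, hk, hasPlaneDrawing k m, forcingWidths_nonempty k m, fun v => ?_⟩
  have h1 : minorForcingWidth (attachPendant (trianglesAndPoints k m) (Sum.inl v)) =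
      minorForcingWidth (trianglesAndPoints k m) := by
    rw [← h]
    unfold minorForcingWidth
    rw [forcingWidths_pendant]
  refine ⟨?_, h1, by omega⟩
  rw [forcingWidths_pendant]
  exact forcingWidths_nonempty k (m + 1)

end Pool.Agent.Results.MP_420e77_co.PendantFails
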